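import Pool.Agent.Helper71.LOC.Adapt2

/-! Localization forcing: unbounded reals whose digits are decided by fixed finite parts of the
generic slalom. -/

set_option autoImplicit false

namespace Pool.Agent.Helper71.LOCU

open Pool.Agent.Helper71.LOC

theorem bern2 (A : ℕ → Set ℕ) (hA : ∀ i, (A i).Infinite) :
    ∃ χ : ℕ → List Bool, ∀ i ρ, ∃ x ∈ A i, χ x = ρ := by
  classical
  obtain ⟨f, hf, hf2⟩ := pick (fun j i => j ∈ A (Nat.unpair i).1) (fun i m => by
    obtain ⟨x, hx, hxm⟩ := (hA (Nat.unpair i).1).exists_gt m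
    exact ⟨x, hxm.le, hx⟩)
  refine ⟨fun x => if h : ∃ i, x = f i then
    (Encodable.decode (α := List Bool) (Nat.unpair h.choose).2).getD [] else [], fun i ρ => ?_⟩
  obtain ⟨m, hm⟩ : ∃ m, m = Nat.pair i (Encodable.encode ρ) := ⟨_, rfl⟩
  have h1 := hf2 m
  have h2 : Nat.unpair m = (i, Encodable.encode ρ) := by rw [hm, Nat.unpair_pair]
  rw [h2] at h1
  refine ⟨f m, h1, ?_⟩
  have h : ∃ i, f m = f i := ⟨m, rfl⟩
  beta_reduce
  rw [dif_pos h]
  have h3 : h.choose = m := (hf.injective h.choose_spec).symm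
  rw [h3, h2]
  simp

theorem bern3 (C : Set (Set ℕ)) (hC : C.Countable) :
    ∃ χ : ℕ → List Bool, ∀ X ∈ C, X.Infinite → ∀ ρ, ∃ x ∈ X, χ x = ρ := by
  classical
  have h1 : (C ∩ {X | X.Infinite}).Countable := hC.mono Set.inter_subset_left
  by_cases h2 : (C ∩ {X | X.Infinite}).Nonempty
  · obtain ⟨A, hA⟩ := h1.exists_eq_range h2
    have h3 : ∀ n, (A n).Infinite := by
      intro n
      have h4 : A n ∈ Set.range A := ⟨n, rfl⟩
      rw [← hA] at h4
      exact h4.2
    obtain ⟨χ, hχ⟩ := bern2 A h3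
    refine ⟨χ, fun X hX hX2 ρ => ?_⟩
    have h5 : X ∈ Set.range A := by
      rw [← hA]
      exact ⟨hX, hX2⟩
    obtain ⟨n, hn⟩ := h5
    rw [← hn]
    exact hχ n ρ
  · exact ⟨fun _ => [], fun X hX hX2 => absurd ⟨X, hX, hX2⟩ h2⟩

/-- bits read off longer and longer initial segments -/
theorem gen (B : (ℕ → ℕ) → ℕ → List Bool)
    (h1 : ∀ (x y : ℕ → ℕ) (j : ℕ), (∀ i < j, x i = y i) → B x j = B y j)
    (h2 : ∀ x j, B x j <+: B x (j + 1)) :
    ∃ c : (ℕ → ℕ) → ℕ → Bool, Measurable c ∧
      ∀ (x : ℕ → ℕ) (j i : ℕ) (hi : i < (B x j).length), (B x j)[i] = c x i := by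
  classical
  have h3 : ∀ x i j, i ≤ j → B x i <+: B x j := by
    intro x i j h
    induction j, h using Nat.le_induction with
    | base => exact List.prefix_rfl
    | succ j _ ih => exact ih.trans (h2 x j)
  refine ⟨fun x i => decide (∃ j, (B x j)[i]? = some true), ?_, fun x j i hi => ?_⟩
  · refine measurable_pi_lambda _ fun i => measurable_to_bool ?_
    have h4 : (fun x => decide (∃ j, (B x j)[i]? = some true)) ⁻¹' {true} =
        ⋃ j, {x | (B x j)[i]? = some true} := by
      ext x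
      simp
    rw [h4]
    refine MeasurableSet.iUnion fun j => meas_fin j _ fun x y h => ?_
    rw [h1 x y j h]
  · have key : ∀ j', (B x j')[i]? = some true → (B x j)[i] = true := by
      intro j' hj'
      obtain ⟨a1, a2⟩ := List.getElem?_eq_some_iff.1 hj'
      rcases le_total j j' with h4 | h4
      · rw [← a2]
        exact (h3 x _ _ h4).getElem hi
      · rw [← a2]
        exact ((h3 x _ _ h4).getElem a1).symm
    cases hσ : (B x j)[i] with
    | true =>
      refine (decide_eq_true ⟨j, ?_⟩).symm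
      rw [List.getElem?_eq_getElem hi, hσ]
    | false =>
      refine (decide_eq_false ?_).symm
      rintro ⟨j', hj'⟩
      rw [key j' hj'] at hσ
      exact absurd hσ (by decide)

/-- the first `j` digits -/
def px (x : ℕ → ℕ) (j : ℕ) : List ℕ := (List.range j).map x

/-- the possible digits after `t` below `p` -/
def Suc (φ : ℕ → (ℕ → Finset ℕ) → ℕ) (t : List ℕ) (p : Cond) : Set ℕ :=
  {a | ∃ S, Thr p S ∧ px (fun j => φ j S) t.length = t ∧ φ t.length S = a}

/-- a bound for the part of the slalom which decides the first digits -/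
def bd (k : ℕ → ℕ) (j : ℕ) : ℕ := (Finset.range (j + 1)).sup k

theorem le_bd (k : ℕ → ℕ) {i j : ℕ} (h : i ≤ j) : k i ≤ bd k j :=
  Finset.le_sup (f := k) (Finset.mem_range.2 (Nat.lt_succ_of_le h))

theorem suc_countable (k : ℕ → ℕ) (φ : ℕ → (ℕ → Finset ℕ) → ℕ)
    (hφ : ∀ j S S', (∀ n < k j, S n = S' n) → φ j S = φ j S') (t : List ℕ) :
    (Set.range (Suc φ t)).Countable := by
  classical
  obtain ⟨N, hN⟩ : ∃ N, N = bd k t.length := ⟨_, rfl⟩
  let T : ℕ × List (Finset ℕ) × Finset (Fin N → ℕ) → Set ℕ := fun z =>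
    {a | ∃ S : ℕ → Finset ℕ, (∀ n, (S n).card ≤ n) ∧ (∀ n < z.1, S n = z.2.1.getD n ∅) ∧
      (∀ f ∈ z.2.2, ∀ n (hn : n < N), z.1 ≤ n → f ⟨n, hn⟩ ∈ S n) ∧
      px (fun j => φ j S) t.length = t ∧ φ t.length S = a}
  refine (Set.countable_range T).mono ?_
  rintro X ⟨p, rfl⟩
  refine ⟨(p.len, (List.range p.len).map p.s, p.F.image fun f (i : Fin N) => f i), ?_⟩
  have hst : ∀ n < p.len, ((List.range p.len).map p.s).getD n ∅ = p.s n := by
    intro n hn
    rw [List.getD_eq_getElem _ _ (by rwa [List.length_map, List.length_range])]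
    simp
  ext a
  constructor
  · rintro ⟨S, h1, h2, h3, h4, h5⟩
    let S' : ℕ → Finset ℕ := fun n => if n < N ∨ n < p.len then S n else im p.F n
    have hag : ∀ n < N, S' n = S n := fun n hn => if_pos (Or.inl hn)
    have hdg : ∀ l ≤ t.length, φ l S' = φ l S := fun l hl =>
      hφ l _ _ fun n hn => hag n (hn.trans_le (by rw [hN]; exact le_bd k hl))
    refine ⟨S', ⟨fun n => ?_, fun n hn => ?_, fun x hx n hn => ?_⟩, ?_, ?_⟩
    · change (if n < N ∨ n < p.len then S n else im p.F n).card ≤ n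
      split_ifs with h
      · exact h1 n
      · push Not at h
        exact (card_im _ _).trans (p.card_F.trans h.2)
    · change (if n < N ∨ n < p.len then S n else im p.F n) = p.s n
      rw [if_pos (Or.inr hn), h2 n hn]
      exact hst n hn
    · change x n ∈ (if n < N ∨ n < p.len then S n else im p.F n)
      split_ifs with h
      · rcases h with h | h
        · exact h3 _ (Finset.mem_image_of_mem _ hx) n h hn
        · omega
      · exact mem_im hx n
    · refine Eq.trans ?_ h4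
      exact px_congr fun i hi => hdg i hi.le
    · rw [hdg _ le_rfl]
      exact h5
  · rintro ⟨S, h1, h2, h3⟩
    refine ⟨S, h1.1, fun n hn => ?_, fun f hf n hn hn' => ?_, h2, h3⟩
    · rw [h1.2.1 n hn]
      exact (hst n hn).symm
    · obtain ⟨g, hg, rfl⟩ := Finset.mem_image.1 hf
      exact h1.2.2 g hg n hn'

/-- unbounded reals -/
theorem unb (k : ℕ → ℕ) (φ : ℕ → (ℕ → Finset ℕ) → ℕ)
    (hφ : ∀ j S S', (∀ n < k j, S n = S' n) → φ j S = φ j S') :
    ∃ c : (ℕ → ℕ) → ℕ → Bool, Measurable c ∧ ∀ p : Cond,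
      (∃ h : ℕ → ℕ, ∀ S, Thr p S → ∀ j, φ j S ≤ h j) ∨
      ∀ D : Set (List Bool), (∀ τ, ∃ σ ∈ D, τ <+: σ) →
        ∃ q, Cond.Le q p ∧ ∃ σ ∈ D, ∃ s : List ℕ,
          (∀ S, Thr q S → (List.range s.length).map (fun j => φ j S) = s) ∧
          ∀ x : ℕ → ℕ, (List.range s.length).map x = s →
            ∀ (i : ℕ) (hi : i < σ.length), σ[i] = c x i := by
  classical
  choose χ hχ using fun t => bern3 _ (suc_countable k φ hφ t)
  let B : (ℕ → ℕ) → ℕ → List Bool := fun x j =>
    Nat.rec [] (fun j l => l ++ χ (px x j) (x j)) j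
  have hB : ∀ x j, B x (j + 1) = B x j ++ χ (px x j) (x j) := fun x j => rfl
  have hBc : ∀ (x y : ℕ → ℕ) (j : ℕ), (∀ i < j, x i = y i) → B x j = B y j := by
    intro x y j
    induction j with
    | zero => exact fun _ => rfl
    | succ j ih =>
      intro h
      have h1 : px x j = px y j := px_congr fun i hi => h i (by omega)
      rw [hB, hB, ih fun i hi => h i (by omega), h1, h j (by omega)]
  obtain ⟨c, hc, hcB⟩ := gen B hBc fun x j => by
    rw [hB]
    exact List.prefix_append _ _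
  refine ⟨c, hc, fun p => ?_⟩
  by_cases hbd : ∃ h : ℕ → ℕ, ∀ S, Thr p S → ∀ j, φ j S ≤ h j
  · exact Or.inl hbd
  right
  intro D hD
  have hex : ∃ j, {a | ∃ S, Thr p S ∧ φ j S = a}.Infinite := by
    by_contra hcon
    push Not at hcon
    have h1 : ∀ j, ∃ h, ∀ S, Thr p S → φ j S ≤ h := by
      intro j
      obtain ⟨h, hh⟩ := (hcon j).bddAbove
      exact ⟨h, fun S hS => hh ⟨S, hS, rfl⟩⟩
    choose h hh using h1
    exact hbd ⟨h, fun S hS j => hh j S hS⟩
  obtain ⟨j, hj⟩ : ∃ j, j = Nat.find hex := ⟨_, rfl⟩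
  have hspec := Nat.find_spec hex
  rw [← hj] at hspec
  have hmin : ∀ l < j, {a | ∃ S, Thr p S ∧ φ l S = a}.Finite := by
    intro l hl
    rw [hj] at hl
    exact Set.not_infinite.1 (Nat.find_min hex hl)
  have hpre : ∀ l ≤ j, {t | ∃ S, Thr p S ∧ px (fun j => φ j S) l = t}.Finite := by
    intro l
    induction l with
    | zero =>
      intro _
      refine (Set.finite_singleton ([] : List ℕ)).subset ?_
      rintro t ⟨S, _, rfl⟩
      rfl
    | succ l ih =>
      intro hl
      refine ((ih (by omega)).image2 (fun t a => t ++ [a]) (hmin l (by omega))).subset ?_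
      rintro t ⟨S, hS, rfl⟩
      refine ⟨_, ⟨S, hS, rfl⟩, _, ⟨S, hS, rfl⟩, ?_⟩
      unfold px
      rw [List.range_succ, List.map_append]
      rfl
  obtain ⟨t, ht⟩ : ∃ t : List ℕ, t.length = j ∧ (Suc φ t p).Infinite := by
    by_contra hcon
    push Not at hcon
    refine hspec (((hpre j le_rfl).biUnion (t := fun t => {a | t.length = j ∧ a ∈ Suc φ t p})
      fun t ht => ?_).subset ?_)
    · by_cases h1 : t.length = j
      · refine (hcon t h1).subset fun a ha => ha.2
      · refine Set.finite_empty.subset fun a ha => absurd ha.1 h1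
    · rintro a ⟨S, hS, rfl⟩
      have hl : (px (fun j => φ j S) j).length = j := by
        unfold px
        rw [List.length_map, List.length_range]
      refine Set.mem_biUnion (x := px (fun j => φ j S) j) ⟨S, hS, rfl⟩ ⟨hl, S, hS, ?_, ?_⟩
      · rw [hl]
      · rw [hl]
  obtain ⟨htl, hinf⟩ := ht
  obtain ⟨a₀, S₀, hS₀, hp₀, -⟩ := hinf.nonempty
  obtain ⟨σ, hσD, ρ, hρ⟩ := hD (B (fun j => φ j S₀) t.length)
  obtain ⟨a, ⟨S, hS, hpS, haS⟩, hχa⟩ := hχ t (Suc φ t p) ⟨p, rfl⟩ hinf ρ
  have hBS : B (fun j => φ j S) (t.length + 1) = σ := by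
    rw [hB, hpS, haS, hχa, ← hρ]
    congr 1
    exact hBc _ _ _ (px_inj (hpS.trans hp₀.symm))
  obtain ⟨N, hN⟩ : ∃ N, N = p.len + bd k t.length := ⟨_, rfl⟩
  refine ⟨mkC N S p.F (fun n _ => hS.1 n) (p.card_F.trans (by omega)), ?_, σ, hσD,
    px (fun j => φ j S) (t.length + 1), fun S' hS' => ?_, fun x hx i hi => ?_⟩
  · exact mkC_le _ _ (by omega) (fun n hn => hS.2.1 n hn) (Finset.Subset.refl _)
      fun x hx n hn _ => hS.2.2 x hx n hn
  · have hl : (px (fun j => φ j S) (t.length + 1)).length = t.length + 1 := by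
      unfold px
      rw [List.length_map, List.length_range]
    rw [hl]
    refine px_congr fun l hl => hφ l _ _ fun n hn => ?_
    have h1 : n < N := by
      have := le_bd k (show l ≤ t.length by omega)
      omega
    rw [hS'.2.1 n h1]
    change (if n < N then S n else ∅) = S n
    rw [if_pos h1]
  · have hl : (px (fun j => φ j S) (t.length + 1)).length = t.length + 1 := by
      unfold px
      rw [List.length_map, List.length_range]
    rw [hl] at hx
    have h1 : B x (t.length + 1) = σ := by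
      rw [← hBS]
      exact hBc _ _ _ (px_inj hx)
    subst h1
    exact hcB x (t.length + 1) i hi

end Pool.Agent.Helper71.LOCU
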